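import Pool.Agent.Helper86.Poly.Goals

/-! Packet LOA of helper86 (MP_cd13d2_co): lower bound for the volumes. -/

set_option autoImplicit false

namespace Pool.Agent.Helper33.Poly

open MeasureTheory Set Metric
open Pool.Agent.Helper86.Poly
open scoped Pointwise

theorem V_nonneg (d n : ℕ) : 0 ≤ V d n := by
  apply Real.sSup_nonneg
  rintro v ⟨P, _, rfl⟩
  exact ENNReal.toReal_nonneg

theorem V_bdd (d n : ℕ) :
    BddAbove {v : ℝ | ∃ P : Set (E d), Admissible d n P ∧ v = (volume P).toReal} := by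
  refine ⟨(volume (closedBall (0 : E d) 1)).toReal, ?_⟩
  rintro v ⟨P, ⟨⟨s, hs, rfl⟩, hint, _, hdiam⟩, rfl⟩
  obtain ⟨x, hx⟩ := hint
  have hxP := interior_subset hx
  have hb : Bornology.IsBounded (convexHull ℝ s) := (hs.isCompact_convexHull (𝕜 := ℝ)).isBounded
  have hsub : convexHull ℝ s ⊆ closedBall x 1 := by
    intro y hy
    rw [mem_closedBall, ← hdiam]
    exact dist_le_diam_of_mem hb hy hxP
  have h1 : volume (closedBall x 1) = volume (closedBall (0 : E d) 1) :=
    Measure.addHaar_closedBall_center volume x 1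
  rw [← h1]
  exact ENNReal.toReal_mono measure_closedBall_lt_top.ne (measure_mono hsub)

theorem sphere_infinite (d : ℕ) (hd : 2 ≤ d) : (sphere (0 : E d) 1).Infinite := by
  have hrank : 1 < Module.rank ℝ (E d) := by
    rw [← Module.finrank_eq_rank, finrank_euclideanSpace, Fintype.card_fin]
    exact_mod_cast (by omega : 1 < d)
  have hpc := isPreconnected_sphere hrank (0 : E d) 1
  apply hpc.infinite_of_nontrivial
  let e : E d := EuclideanSpace.single ⟨0, by omega⟩ 1
  have he : ‖e‖ = 1 := by simp [e]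
  refine ⟨e, by simpa using he, -e, by simpa using he, ?_⟩
  intro h
  have h2 : e = 0 := by
    have : (2 : ℝ) • e = 0 := by rw [two_smul]; nth_rewrite 1 [h]; simp
    simpa using this
  rw [h2] at he
  simp at he

theorem extreme_sphere {d : ℕ} (Z : Set (E d)) (r : ℝ) (hr : 0 < r) (hZ : ∀ z ∈ Z, ‖z‖ = r) :
    (convexHull ℝ Z).extremePoints ℝ = Z := by
  apply Subset.antisymm extremePoints_convexHull_subset
  intro z hz
  have hsub : convexHull ℝ Z ⊆ closedBall (0 : E d) r := by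
    apply convexHull_min _ (convex_closedBall _ _)
    intro y hy
    rw [mem_closedBall_zero_iff, hZ y hy]
  have hmem : z ∈ convexHull ℝ Z := subset_convexHull ℝ Z hz
  refine inter_extremePoints_subset_extremePoints_of_subset hsub ⟨hmem, ?_⟩
  rw [mem_extremePoints]
  refine ⟨hsub hmem, ?_⟩
  intro x1 hx1 x2 hx2 hseg
  by_contra hcon
  have hne : x1 ≠ x2 := by
    rintro rfl
    apply hcon
    rw [openSegment_same] at hseg
    have := mem_singleton_iff.1 hseg
    exact ⟨this.symm, this.symm⟩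
  have h1 := (strictConvex_closedBall ℝ (0 : E d) r).openSegment_subset hx1 hx2 hne hseg
  rw [interior_closedBall _ hr.ne', mem_ball_zero_iff, hZ z hz] at h1
  exact lt_irrefl _ h1

/-- The inscribed polytope. -/
theorem build (h2 : G_HULL) (d n : ℕ) (hd : 2 ≤ d) (δ : ℝ) (hδ : 0 < δ) (hδ1 : δ ≤ 1)
    (X : Finset (E d)) (hX1 : ∀ x ∈ X, ‖x‖ = 1) (hXc : X.card + 1 ≤ n)
    (hXn : ∀ u : E d, ‖u‖ = 1 → ∃ x ∈ X, dist u x ≤ δ) :
    (1 - δ ^ 2 / 2) ^ d * β d ≤ V d n := by
  classical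
  let e : E d := EuclideanSpace.single ⟨0, by omega⟩ 1
  have he : ‖e‖ = 1 := by simp [e]
  have hnt : Nontrivial (E d) := ⟨⟨e, 0, by
    intro h
    rw [h] at he
    simp at he⟩⟩
  obtain ⟨x₀, hx₀, _⟩ := hXn e he
  -- choose Y
  have hinf := sphere_infinite d hd
  have hst : ((insert (-x₀) X : Finset (E d)) : Set (E d)) ⊆ sphere (0 : E d) 1 := by
    intro y hy
    rw [Finset.coe_insert, mem_insert_iff] at hy
    rw [mem_sphere_zero_iff_norm]
    rcases hy with rfl | hy
    · rw [norm_neg]; exact hX1 x₀ hx₀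
    · exact hX1 y hy
  have hk : ((insert (-x₀) X : Finset (E d)) : Set (E d)).ncard ≤ n := by
    rw [Set.ncard_coe_finset]
    exact (Finset.card_insert_le _ _).trans hXc
  obtain ⟨Y, hY1, hY2, hY3⟩ := hinf.exists_superset_ncard_eq hst (Finset.finite_toSet _) hk
  have hn0 : n ≠ 0 := by omega
  have hYfin : Y.Finite := by
    apply Set.finite_of_ncard_ne_zero
    rw [hY3]; exact hn0
  have hYn : ∀ y ∈ Y, ‖y‖ = 1 := fun y hy => by
    simpa using hY2 hy
  have hxY : x₀ ∈ Y := hY1 (by simp [hx₀])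
  have hmxY : -x₀ ∈ Y := hY1 (by simp)
  -- Z
  let Z : Set (E d) := (1 / 2 : ℝ) • Y
  have hZfin : Z.Finite := hYfin.smul_set
  have hZn : ∀ z ∈ Z, ‖z‖ = 1 / 2 := by
    rintro z ⟨y, hy, rfl⟩
    simp only
    rw [norm_smul, hYn y hy]
    norm_num
  have hZcard : Z.ncard = n := by
    have : Z = (fun y : E d => (1 / 2 : ℝ) • y) '' Y := rfl
    rw [this, Set.ncard_image_of_injective _ (smul_right_injective _ (by norm_num)), hY3]
  have hhull := h2 d hYfin.toFinset δ (by omega) hδ hδ1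
    (fun x hx => hYn x (by simpa using hx)) (fun u hu => by
      obtain ⟨x, hx, hx2⟩ := hXn u hu
      exact ⟨x, by simpa using hY1 (by simp [hx]), hx2⟩)
  rw [Set.Finite.coe_toFinset] at hhull
  have hρ : 0 < 1 - δ ^ 2 / 2 := by nlinarith
  have hball : closedBall (0 : E d) ((1 - δ ^ 2 / 2) * (1 / 2)) ⊆ convexHull ℝ Z := by
    intro w hw
    rw [mem_closedBall_zero_iff] at hw
    have hw2 : (2 : ℝ) • w ∈ convexHull ℝ Y := by
      apply hhull
      rw [mem_closedBall_zero_iff, norm_smul]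
      norm_num
      linarith
    have : convexHull ℝ Z = (1 / 2 : ℝ) • convexHull ℝ Y := convexHull_smul _ _
    rw [this]
    refine ⟨(2 : ℝ) • w, hw2, ?_⟩
    simp only
    rw [smul_smul]
    norm_num
  have hdiamZ : Metric.diam (convexHull ℝ Z) = 1 := by
    rw [convexHull_diam]
    apply le_antisymm
    · have hsub : Z ⊆ closedBall (0 : E d) (1 / 2) := fun z hz => by
        rw [mem_closedBall_zero_iff, hZn z hz]
      refine (Metric.diam_mono hsub isBounded_closedBall).trans ?_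
      refine (Metric.diam_closedBall (by norm_num)).trans ?_
      norm_num
    · have h3 : dist ((1 / 2 : ℝ) • x₀) ((1 / 2 : ℝ) • (-x₀)) = 1 := by
        rw [dist_eq_norm]
        have : (1 / 2 : ℝ) • x₀ - (1 / 2 : ℝ) • (-x₀) = x₀ := by
          rw [smul_neg, sub_neg_eq_add, ← add_smul]; norm_num
        rw [this, hX1 x₀ hx₀]
      rw [← h3]
      exact dist_le_diam_of_mem hZfin.isBounded (smul_mem_smul_set hxY) (smul_mem_smul_set hmxY)
  have hadm : Admissible d n (convexHull ℝ Z) := by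
    refine ⟨⟨Z, hZfin, rfl⟩, ?_, ?_, hdiamZ⟩
    · refine ⟨0, ?_⟩
      apply interior_mono hball
      apply ball_subset_interior_closedBall
      rw [mem_ball_zero_iff, norm_zero]
      positivity
    · rw [extreme_sphere Z (1 / 2) (by norm_num) hZn, hZcard]
  have hvol : (1 - δ ^ 2 / 2) ^ d * β d ≤ (volume (convexHull ℝ Z)).toReal := by
    have h4 : volume (closedBall (0 : E d) ((1 - δ ^ 2 / 2) * (1 / 2))) =
        ENNReal.ofReal ((1 - δ ^ 2 / 2) ^ d) * volume (ball (0 : E d) (1 / 2)) := by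
      rw [Measure.addHaar_closedBall_mul volume 0 hρ.le (by norm_num),
        Measure.addHaar_closedBall_eq_addHaar_ball, finrank_euclideanSpace, Fintype.card_fin]
    have h5 := ENNReal.toReal_mono
      (hZfin.isCompact_convexHull (𝕜 := ℝ)).measure_lt_top.ne (measure_mono (μ := volume) hball)
    rw [h4, ENNReal.toReal_mul, ENNReal.toReal_ofReal (by positivity)] at h5
    exact h5
  exact hvol.trans (le_csSup (V_bdd d n) ⟨_, hadm, rfl⟩)

theorem PkLOA.thm (h1 : G_SEP) (h2 : G_HULL) : G_LOA := by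
  intro d hd
  obtain ⟨C₀, hC₀, hsep⟩ := h1 d hd
  have hd1 : (0 : ℝ) < (d : ℝ) - 1 := by
    have : (2 : ℝ) ≤ d := by exact_mod_cast hd
    linarith
  set e : ℝ := 2 / ((d : ℝ) - 1) with hedef
  have he : 0 < e := by positivity
  have hβ : 0 ≤ β d := ENNReal.toReal_nonneg
  obtain ⟨n₀, hn₀⟩ := exists_nat_ge (max 4 (2 * C₀))
  have hn₀4 : (4 : ℝ) ≤ n₀ := (le_max_left _ _).trans hn₀
  have hn₀C : 2 * C₀ ≤ n₀ := (le_max_right _ _).trans hn₀
  refine ⟨(d : ℝ) / 2 * (2 * C₀) ^ e + (n₀ : ℝ) ^ e, by positivity, ?_⟩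
  intro n hn
  have hnpos : (0 : ℝ) < n := by
    have : 0 < n := by omega
    exact_mod_cast this
  have hne : 0 < (n : ℝ) ^ (-e) := by positivity
  by_cases hcase : n₀ ≤ n
  · have hnR : (n₀ : ℝ) ≤ n := by exact_mod_cast hcase
    -- choice of delta
    set δ : ℝ := (2 * C₀ / n) ^ (1 / ((d : ℝ) - 1)) with hδdef
    have hδ : 0 < δ := by positivity
    have hδ1 : δ ≤ 1 := by
      apply Real.rpow_le_one (by positivity) _ (by positivity)
      rw [div_le_one hnpos]
      linarith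
    have hcast : ((d - 1 : ℕ) : ℝ) = (d : ℝ) - 1 := by
      rw [Nat.cast_sub (by omega)]; norm_num
    have hδd : δ ^ (d - 1) = 2 * C₀ / n := by
      rw [← Real.rpow_natCast, hδdef, ← Real.rpow_mul (by positivity), hcast]
      rw [one_div, inv_mul_cancel₀ hd1.ne', Real.rpow_one]
    have hδ2 : δ ^ 2 = (2 * C₀) ^ e * (n : ℝ) ^ (-e) := by
      have h3 : δ ^ 2 = (2 * C₀ / n) ^ e := by
        rw [← Real.rpow_natCast, hδdef, ← Real.rpow_mul (by positivity)]
        congr 1
        rw [hedef]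
        push_cast
        ring
      rw [h3, Real.div_rpow (by positivity) (by positivity), Real.rpow_neg (by positivity)]
      rfl
    obtain ⟨X, hX1, hXc, hXn⟩ := hsep δ hδ hδ1
    have hXc2 : X.card + 1 ≤ n := by
      rw [hδd] at hXc
      have h3 : C₀ / (2 * C₀ / n) = n / 2 := by
        field_simp
      rw [h3] at hXc
      have h4 : (X.card : ℝ) + 1 ≤ n := by linarith
      exact_mod_cast h4
    have hmain := build h2 d n hd δ hδ hδ1 X hX1 hXc2 hXn
    refine le_trans ?_ hmain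
    apply mul_le_mul_of_nonneg_right _ hβ
    have hbern : 1 + (d : ℝ) * (-(δ ^ 2 / 2)) ≤ (1 + (-(δ ^ 2 / 2))) ^ d := by
      apply one_add_mul_le_pow
      nlinarith
    have h6 : (1 + (-(δ ^ 2 / 2))) = 1 - δ ^ 2 / 2 := by ring
    rw [h6] at hbern
    refine le_trans ?_ hbern
    have h7 : 0 ≤ (n₀ : ℝ) ^ e * (n : ℝ) ^ (-e) := by positivity
    rw [hδ2]
    nlinarith
  · have hlt : (n : ℝ) ≤ n₀ := by
      have : n ≤ n₀ := by omega
      exact_mod_cast this
    have h8 : (1 : ℝ) ≤ (n₀ : ℝ) ^ e * (n : ℝ) ^ (-e) := by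
      rw [Real.rpow_neg hnpos.le, ← div_eq_mul_inv, one_le_div (by positivity)]
      exact Real.rpow_le_rpow hnpos.le hlt he.le
    have h9 : 0 ≤ (d : ℝ) / 2 * (2 * C₀) ^ e * (n : ℝ) ^ (-e) := by positivity
    have h10 : (1 - ((d : ℝ) / 2 * (2 * C₀) ^ e + (n₀ : ℝ) ^ e) * (n : ℝ) ^ (-e)) ≤ 0 := by
      nlinarith
    calc _ ≤ 0 := mul_nonpos_of_nonpos_of_nonneg h10 hβ
      _ ≤ V d n := V_nonneg d n

end Pool.Agent.Helper33.Poly
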